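import Mathlib

/-!
# MP_cde0c0_lc : palindromes

The automaton `join A B` for the language `L(A) # L(B)` accepts a palindrome iff some `x` in `L(A)` has its
reversal in `L(B)`.
-/

set_option autoImplicit false

namespace Pool.Agent.CDEP

variable {α σ τ : Type}

open Classical in
/-- one step of the automaton for `L(A) # L(B)`; the letter `none` is the separator, the state `none` is dead -/
noncomputable def jstep (A : DFA α σ) (B : DFA α τ) : Option (σ ⊕ τ) → Option α → Option (σ ⊕ τ)
  | some (Sum.inl p), some a => some (Sum.inl (A.step p a))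
  | some (Sum.inl p), none => if p ∈ A.accept then some (Sum.inr B.start) else none
  | some (Sum.inr q), some a => some (Sum.inr (B.step q a))
  | _, _ => none

/-- the automaton for `L(A) # L(B)` -/
noncomputable def join (A : DFA α σ) (B : DFA α τ) : DFA (Option α) (Option (σ ⊕ τ)) where
  step := jstep A B
  start := some (Sum.inl A.start)
  accept := {s | ∃ q, q ∈ B.accept ∧ s = some (Sum.inr q)}

theorem ev_none (A : DFA α σ) (B : DFA α τ) (y : List (Option α)) :
    (join A B).evalFrom none y = none := by
  induction y with
  | nil => rfl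
  | cons a y ih => exact ih

theorem ev_inr (A : DFA α σ) (B : DFA α τ) (v : List α) : ∀ q : τ,
    (join A B).evalFrom (some (Sum.inr q)) (v.map some) = some (Sum.inr (B.evalFrom q v)) := by
  induction v with
  | nil => intro q; rfl
  | cons a v ih => intro q; exact ih (B.step q a)

theorem ev_inl (A : DFA α σ) (B : DFA α τ) (u : List α) : ∀ p : σ,
    (join A B).evalFrom (some (Sum.inl p)) (u.map some) = some (Sum.inl (A.evalFrom p u)) := by
  induction u with
  | nil => intro p; rfl
  | cons a u ih => intro p; exact ih (A.step p a)

theorem inr_of (A : DFA α σ) (B : DFA α τ) (y : List (Option α)) : ∀ q : τ,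
    (join A B).evalFrom (some (Sum.inr q)) y ∈ (join A B).accept →
      ∃ v : List α, y = v.map some ∧ B.evalFrom q v ∈ B.accept := by
  induction y with
  | nil =>
    intro q h
    obtain ⟨q', hq', h'⟩ := h
    refine ⟨[], rfl, ?_⟩
    have h2 : (some (Sum.inr q) : Option (σ ⊕ τ)) = some (Sum.inr q') := h'
    have h3 : q = q' := by simpa using h2
    rw [h3]
    exact hq'
  | cons a y ih =>
    intro q h
    cases a with
    | none =>
      exfalso
      have h1 : (join A B).evalFrom none y ∈ (join A B).accept := h
      rw [ev_none] at h1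
      obtain ⟨q', _, h'⟩ := h1
      exact absurd h' (by simp)
    | some a =>
      obtain ⟨v, hv, hv'⟩ := ih (B.step q a) h
      exact ⟨a :: v, by rw [hv]; rfl, hv'⟩

theorem inl_of (A : DFA α σ) (B : DFA α τ) (y : List (Option α)) : ∀ p : σ,
    (join A B).evalFrom (some (Sum.inl p)) y ∈ (join A B).accept →
      ∃ u v : List α, y = u.map some ++ none :: v.map some ∧ A.evalFrom p u ∈ A.accept ∧
        v ∈ B.accepts := by
  induction y with
  | nil =>
    intro p h
    obtain ⟨q', _, h'⟩ := h
    have h2 : (some (Sum.inl p) : Option (σ ⊕ τ)) = some (Sum.inr q') := h'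
    exact absurd h2 (by simp)
  | cons a y ih =>
    intro p h
    cases a with
    | none =>
      by_cases hp : p ∈ A.accept
      · have h0 : jstep A B (some (Sum.inl p)) none = some (Sum.inr B.start) := by
          unfold jstep
          simp [hp]
        have h1 : (join A B).evalFrom (jstep A B (some (Sum.inl p)) none) y ∈ (join A B).accept := h
        rw [h0] at h1
        obtain ⟨v, hv, hv'⟩ := inr_of A B y B.start h1
        exact ⟨[], v, by rw [hv]; rfl, hp, hv'⟩
      · exfalso
        have h0 : jstep A B (some (Sum.inl p)) none = none := by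
          unfold jstep
          simp [hp]
        have h1 : (join A B).evalFrom (jstep A B (some (Sum.inl p)) none) y ∈ (join A B).accept := h
        rw [h0, ev_none] at h1
        obtain ⟨q', _, h'⟩ := h1
        exact absurd h' (by simp)
    | some a =>
      obtain ⟨u, v, hy, hu, hv⟩ := ih (A.step p a) h
      exact ⟨a :: u, v, by rw [hy]; rfl, hu, hv⟩

theorem mem_join (A : DFA α σ) (B : DFA α τ) (u v : List α) (hu : u ∈ A.accepts)
    (hv : v ∈ B.accepts) : u.map some ++ none :: v.map some ∈ (join A B).accepts := by
  have h0 : jstep A B (some (Sum.inl (A.evalFrom A.start u))) none = some (Sum.inr B.start) := by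
    unfold jstep
    have : A.evalFrom A.start u ∈ A.accept := hu
    simp [this]
  show (join A B).evalFrom (some (Sum.inl A.start)) (u.map some ++ none :: v.map some) ∈
    (join A B).accept
  rw [DFA.evalFrom_of_append, ev_inl]
  show (join A B).evalFrom (jstep A B (some (Sum.inl (A.evalFrom A.start u))) none) (v.map some) ∈
    (join A B).accept
  rw [h0, ev_inr]
  exact ⟨_, hv, rfl⟩

/-- the language of `join A B` is `L(A) # L(B)` -/
theorem mem_join_iff (A : DFA α σ) (B : DFA α τ) (w : List (Option α)) :
    w ∈ (join A B).accepts ↔
      ∃ x y : List α, x ∈ A.accepts ∧ y ∈ B.accepts ∧ w = x.map some ++ none :: y.map some := by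
  constructor
  · intro h
    obtain ⟨u, v, hw, hu, hv⟩ := inl_of A B w A.start h
    exact ⟨u, v, hu, hv, hw⟩
  · rintro ⟨x, y, hx, hy, rfl⟩
    exact mem_join A B x y hx hy

theorem split_unique (u v u' v' : List α)
    (h : u.map some ++ (none : Option α) :: v.map some = u'.map some ++ none :: v'.map some) :
    u = u' ∧ v = v' := by
  induction u generalizing u' with
  | nil =>
    cases u' with
    | nil =>
      simp only [List.map_nil, List.nil_append, List.cons.injEq, true_and] at h
      exact ⟨rfl, List.map_injective_iff.2 (Option.some_injective α) h⟩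
    | cons a u' => simp at h
  | cons a u ih =>
    cases u' with
    | nil => simp at h
    | cons b u' =>
      simp only [List.map_cons, List.cons_append, List.cons.injEq, Option.some.injEq] at h
      obtain ⟨h1, h2⟩ := ih u' h.2
      exact ⟨by rw [h.1, h1], h2⟩

/-- `L(A) # L(B)` contains a palindrome iff some `x` in `L(A)` has its reversal in `L(B)`. -/
theorem palindrome_join (A : DFA α σ) (B : DFA α τ) :
    (∃ y, y.reverse = y ∧ y ∈ (join A B).accepts) ↔
      ∃ x, x ∈ A.accepts ∧ x.reverse ∈ B.accepts := by
  constructor
  · rintro ⟨y, hy, hy'⟩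
    obtain ⟨u, v, h, hu, hv⟩ := inl_of A B y A.start hy'
    refine ⟨u, hu, ?_⟩
    have h1 : v.reverse.map some ++ (none : Option α) :: u.reverse.map some =
        u.map some ++ none :: v.map some := by
      rw [← h, ← hy, h]
      simp [List.reverse_append]
    obtain ⟨_, h3⟩ := split_unique _ _ _ _ h1
    rw [h3]
    exact hv
  · rintro ⟨x, hA, hB⟩
    refine ⟨x.map some ++ none :: x.reverse.map some, ?_, mem_join A B x x.reverse hA hB⟩
    simp [List.reverse_append]

end Pool.Agent.CDEP
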